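import Pool.Agent.H67.Sof4

open Pool.Agent.H67.Sof

theorem Pool.Agent.Results.MP_3452f1_al.NonSofic.result :
    ∃ (M : Type) (_ : Monoid M), JUnits M ∧ Sofic Mˣ ∧
      (∀ m : M, Sofic (Mˣ ⧸ orbStab m)) ∧ ¬ Sofic M :=
  ⟨Tr GZ OZ, inferInstance, Tr.junits, Tr.sofic_units approx, Tr.sofic_quot approx,
    main_not_sofic⟩
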